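import Mathlib

/-!
# MP_52ffe4_co, Q2: the chromatic number of the unit distance graph on `Q(√3, √11)²` is `4`

Upper bound: `K = Q(√3, √11)` embeds into `Q_2(s)`, `s² = 3`, a totally ramified extension of `Q_2`
(as `33` is a square in `Q_2`). With `α = x + y / √3`, `β = 2 y / √3` one has
`x² + y² = α² - α β + β²`, a form without zeros modulo the maximal ideal, so unit vectors have
`α, β` integral and not both in the maximal ideal; the four residues of `(α, β)` modulo the maximal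
ideal, relative to coset representatives, give the colouring.
Lower bound: the Moser spindle has all its vertices in `K²`.
-/

set_option autoImplicit false

namespace Pool.Agent.Results.MP_52ffe4_co.ChromaticFour

open IntermediateField

/-- The field `Q(√3, √11)` as a subfield of the reals. -/
noncomputable def K : IntermediateField ℚ ℝ := adjoin ℚ {√3, √11}

/-- The unit distance graph on `F × F`, for a subfield `F` of the reals. -/
def unitDistGraph (F : IntermediateField ℚ ℝ) : SimpleGraph (F × F) where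
  Adj p q := (p.1 - q.1) ^ 2 + (p.2 - q.2) ^ 2 = 1
  symm := ⟨by
    intro p q h
    rw [← h]; ring⟩
  loopless := ⟨by
    intro p h
    simp at h⟩

lemma sqrt3_mem : √3 ∈ K := subset_adjoin _ _ (by simp)
lemma sqrt11_mem : √11 ∈ K := subset_adjoin _ _ (by simp)

/-- `√3` and `√11` as elements of `K`. -/
noncomputable def a3 : K := ⟨√3, sqrt3_mem⟩
noncomputable def a11 : K := ⟨√11, sqrt11_mem⟩

lemma a3_sq : a3 ^ 2 = 3 := by
  apply Subtype.ext
  show (√3) ^ 2 = 3
  exact Real.sq_sqrt (by norm_num)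

lemma a11_sq : a11 ^ 2 = 11 := by
  apply Subtype.ext
  show (√11) ^ 2 = 11
  exact Real.sq_sqrt (by norm_num)

lemma isIntegral_of_sq {x : ℝ} {n : ℕ} (h : x ^ 2 = n) : IsIntegral ℚ x := by
  refine ⟨Polynomial.X ^ 2 - Polynomial.C (n : ℚ), Polynomial.monic_X_pow_sub_C _ (by norm_num), ?_⟩
  simp [h]

instance : Algebra.IsAlgebraic ℚ K := by
  unfold K
  apply isAlgebraic_adjoin
  intro x hx
  rcases hx with rfl | hx
  · exact isIntegral_of_sq (n := 3) (by rw [Real.sq_sqrt (by norm_num)]; norm_num)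
  · rw [Set.mem_singleton_iff] at hx
    subst hx
    exact isIntegral_of_sq (n := 11) (by rw [Real.sq_sqrt (by norm_num)]; norm_num)

abbrev Ω := PadicAlgCl 2

/-- An embedding of `K` into the algebraic closure of `ℚ_2`. -/
noncomputable def φ : K →ₐ[ℚ] Ω := IsAlgClosed.lift

noncomputable def s : Ω := φ a3
noncomputable def w : Ω := φ a11

lemma s_sq : s ^ 2 = 3 := by
  unfold s
  rw [← map_pow, a3_sq]
  exact map_ofNat φ 3

lemma w_sq : w ^ 2 = 11 := by
  unfold w
  rw [← map_pow, a11_sq]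
  exact map_ofNat φ 11

/-- `33` is a square in `ℚ_2`. -/
lemma exists_root : ∃ z : ℚ_[2], z ^ 2 = 33 := by
  have hF : ∀ a : ℤ_[2], Polynomial.aeval a (Polynomial.X ^ 2 - Polynomial.X - 8 : Polynomial ℤ_[2])
      = a ^ 2 - a - 8 := by
    intro a
    simp
  have hD : ∀ a : ℤ_[2], Polynomial.aeval a
      (Polynomial.derivative (Polynomial.X ^ 2 - Polynomial.X - 8 : Polynomial ℤ_[2])) = 2 * a - 1 := by
    intro a
    simp only [Polynomial.derivative_X_pow, Polynomial.derivative_X,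
      Polynomial.derivative_ofNat, map_sub, map_mul, map_pow, map_one, Polynomial.aeval_X,
      Polynomial.aeval_C, sub_zero]
    norm_num
  obtain ⟨z, hz, -⟩ := @hensels_lemma 2 _ ℤ_[2] _ _ (Polynomial.X ^ 2 - Polynomial.X - 8) (0 : ℤ_[2])
    (by
      rw [hF, hD]
      have e : (0 : ℤ_[2]) ^ 2 - 0 - 8 = -(2 ^ 3) := by norm_num
      rw [e]
      simp only [norm_neg, norm_pow, mul_zero, zero_sub, norm_one, one_pow]
      have h2 : ‖(2 : ℤ_[2])‖ = 2⁻¹ := by
        have := PadicInt.norm_p (p := 2)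
        simpa using this
      rw [h2]
      norm_num)
  rw [hF] at hz
  refine ⟨2 * (z : ℚ_[2]) - 1, ?_⟩
  have hz' : ((z : ℚ_[2])) ^ 2 - z - 8 = 0 := by
    have := congrArg (fun t : ℤ_[2] => (t : ℚ_[2])) hz
    have e8 : ((8 : ℤ_[2]) : ℚ_[2]) = 8 := by norm_cast
    simpa [e8] using this
  linear_combination 4 * hz'

/-- `w` is a `ℚ_2`-multiple of `s`. -/
lemma w_eq : ∃ c : ℚ_[2], w = algebraMap ℚ_[2] Ω c * s := by
  obtain ⟨z, hz⟩ := exists_root
  have h : (w * s - algebraMap ℚ_[2] Ω z) * (w * s + algebraMap ℚ_[2] Ω z) = 0 := by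
    have h1 : (algebraMap ℚ_[2] Ω z) ^ 2 = 33 := by
      rw [← map_pow, hz]
      exact map_ofNat _ 33
    linear_combination s ^ 2 * w_sq + 11 * s_sq - h1
  rcases mul_eq_zero.mp h with h | h
  · refine ⟨z / 3, ?_⟩
    rw [map_div₀, map_ofNat]
    linear_combination (s / 3) * h - (w / 3) * s_sq
  · refine ⟨-z / 3, ?_⟩
    rw [map_div₀, map_neg, map_ofNat]
    linear_combination (s / 3) * h - (w / 3) * s_sq

lemma adjoin_eq : (adjoin ℚ ({√3, √11} : Set ℝ)).toSubalgebra = Algebra.adjoin ℚ {√3, √11} := by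
  apply adjoin_toSubalgebra_of_isAlgebraic
  intro x hx
  rcases hx with rfl | hx
  · exact (isIntegral_of_sq (n := 3) (by rw [Real.sq_sqrt (by norm_num)]; norm_num)).isAlgebraic
  · rw [Set.mem_singleton_iff] at hx
    subst hx
    exact (isIntegral_of_sq (n := 11) (by rw [Real.sq_sqrt (by norm_num)]; norm_num)).isAlgebraic

lemma mem_K_iff (y : ℝ) : y ∈ K ↔ y ∈ Algebra.adjoin ℚ ({√3, √11} : Set ℝ) := by
  rw [← adjoin_eq]; rfl

/-- Every element of `K` maps to `a + b s` with `a b : ℚ_2`. -/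
lemma exists_rep (x : K) : ∃ a b : ℚ_[2], φ x = algebraMap ℚ_[2] Ω a + algebraMap ℚ_[2] Ω b * s := by
  have key : ∀ (y : ℝ) (hy' : y ∈ Algebra.adjoin ℚ ({√3, √11} : Set ℝ)), ∀ (hy : y ∈ K), ∃ a b : ℚ_[2],
      φ ⟨y, hy⟩ = algebraMap ℚ_[2] Ω a + algebraMap ℚ_[2] Ω b * s := by
    intro y hy'
    induction hy' using Algebra.adjoin_induction with
    | mem x hx =>
      intro hy
      rcases hx with rfl | hx
      · exact ⟨0, 1, by simp [s, a3]⟩
      · rw [Set.mem_singleton_iff] at hx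
        subst hx
        obtain ⟨c, hc⟩ := w_eq
        refine ⟨0, c, ?_⟩
        rw [← hc]
        simp [w, a11]
    | algebraMap r =>
      intro hy
      refine ⟨r, 0, ?_⟩
      have : (⟨algebraMap ℚ ℝ r, hy⟩ : K) = algebraMap ℚ K r := rfl
      rw [this, AlgHom.commutes]
      simp
    | add x y hx hy hx' hy' =>
      intro hxy
      obtain ⟨a, b, h1⟩ := hx' ((mem_K_iff x).mpr hx)
      obtain ⟨c, d, h2⟩ := hy' ((mem_K_iff y).mpr hy)
      refine ⟨a + c, b + d, ?_⟩
      have e : (⟨x + y, hxy⟩ : K) = ⟨x, (mem_K_iff x).mpr hx⟩ + ⟨y, (mem_K_iff y).mpr hy⟩ := rfl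
      rw [e, map_add, h1, h2, map_add, map_add]
      ring
    | mul x y hx hy hx' hy' =>
      intro hxy
      obtain ⟨a, b, h1⟩ := hx' ((mem_K_iff x).mpr hx)
      obtain ⟨c, d, h2⟩ := hy' ((mem_K_iff y).mpr hy)
      refine ⟨a * c + 3 * b * d, a * d + b * c, ?_⟩
      have e : (⟨x * y, hxy⟩ : K) = ⟨x, (mem_K_iff x).mpr hx⟩ * ⟨y, (mem_K_iff y).mpr hy⟩ := rfl
      rw [e, map_mul, h1, h2]
      simp only [map_add, map_mul, map_ofNat]
      linear_combination (algebraMap ℚ_[2] Ω b) * (algebraMap ℚ_[2] Ω d) * s_sq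
  exact key x.1 ((mem_K_iff _).mp x.2) x.2

lemma norm_coe (x : ℚ_[2]) : ‖algebraMap ℚ_[2] Ω x‖ = ‖x‖ := PadicAlgCl.norm_extends 2 x

lemma norm_two : ‖(2 : Ω)‖ = 2⁻¹ := by
  have h := norm_coe (2 : ℚ_[2])
  have h2 : ‖(2 : ℚ_[2])‖ = 2⁻¹ := by
    have := Padic.norm_p (p := 2)
    simpa using this
  rw [h2, map_ofNat] at h
  exact h

lemma norm_add_le_one {x y : Ω} (hx : ‖x‖ ≤ 1) (hy : ‖y‖ ≤ 1) : ‖x + y‖ ≤ 1 :=
  (IsUltrametricDist.norm_add_le_max x y).trans (max_le hx hy)

lemma norm_add_lt_one {x y : Ω} (hx : ‖x‖ < 1) (hy : ‖y‖ < 1) : ‖x + y‖ < 1 :=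
  (IsUltrametricDist.norm_add_le_max x y).trans_lt (max_lt hx hy)

lemma norm_sub_le_one {x y : Ω} (hx : ‖x‖ ≤ 1) (hy : ‖y‖ ≤ 1) : ‖x - y‖ ≤ 1 := by
  rw [sub_eq_add_neg]
  exact norm_add_le_one hx (by rwa [norm_neg])

lemma norm_sub_lt_one {x y : Ω} (hx : ‖x‖ < 1) (hy : ‖y‖ < 1) : ‖x - y‖ < 1 := by
  rw [sub_eq_add_neg]
  exact norm_add_lt_one hx (by rwa [norm_neg])

lemma norm_mul_lt_one {x y : Ω} (hx : ‖x‖ < 1) (hy : ‖y‖ ≤ 1) : ‖x * y‖ < 1 := by
  rw [norm_mul]
  calc ‖x‖ * ‖y‖ ≤ ‖x‖ * 1 := by gcongr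
    _ < 1 := by simpa using hx

/-- An element at distance `< 1` from an element of norm `1` has norm `1`. -/
lemma norm_eq_one {x y : Ω} (hx : ‖x‖ = 1) (h : ‖y - x‖ < 1) : ‖y‖ = 1 := by
  apply le_antisymm
  · have : y = (y - x) + x := by ring
    rw [this]
    exact norm_add_le_one h.le hx.le
  · by_contra hlt
    push Not at hlt
    have : ‖y - (y - x)‖ < 1 := norm_sub_lt_one hlt h
    rw [sub_sub_cancel, hx] at this
    exact lt_irrefl _ this

lemma norm_s : ‖s‖ = 1 := by
  have h3 : ‖(3 : Ω)‖ = 1 := by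
    apply norm_eq_one (x := 1) norm_one
    have : (3 : Ω) - 1 = 2 := by norm_num
    rw [this, norm_two]; norm_num
  have h : ‖s‖ ^ 2 = 1 := by rw [← norm_pow, s_sq, h3]
  exact (pow_eq_one_iff_of_nonneg (norm_nonneg s) (by norm_num)).mp h

lemma norm_pi : ‖s - 1‖ ^ 2 = 2⁻¹ := by
  have h1 : ‖2 - s‖ ≤ 1 := norm_sub_le_one (by rw [norm_two]; norm_num) norm_s.le
  have h2 : ‖2 + s‖ ≤ 1 := norm_add_le_one (by rw [norm_two]; norm_num) norm_s.le
  have h3 : ‖2 - s‖ * ‖2 + s‖ = 1 := by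
    rw [← norm_mul]
    have : (2 - s) * (2 + s) = 1 := by linear_combination (-1 : Ω) * s_sq
    rw [this, norm_one]
  have h4 : ‖2 - s‖ = 1 := by
    apply le_antisymm h1
    nlinarith [norm_nonneg (2 - s), norm_nonneg (2 + s)]
  rw [← norm_pow]
  have : (s - 1) ^ 2 = 2 * (2 - s) := by linear_combination s_sq
  rw [this, norm_mul, h4, norm_two, mul_one]

/-- A `2`-adic number of norm at most one is congruent to `0` or `1`. -/
lemma res_Q2 {c : ℚ_[2]} (hc : ‖c‖ ≤ 1) : ‖c‖ < 1 ∨ ‖c - 1‖ < 1 := by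
  obtain ⟨z, hz⟩ : ∃ z : ℤ_[2], (z : ℚ_[2]) = c := ⟨⟨c, hc⟩, rfl⟩
  obtain ⟨n, hn, hm⟩ := PadicInt.exists_mem_range (p := 2) z
  have hm' : ‖z - n‖ < 1 := by
    rw [IsLocalRing.mem_maximalIdeal] at hm
    exact PadicInt.mem_nonunits.mp hm
  have hm2 : ‖c - n‖ < 1 := by
    have e : (((z - n : ℤ_[2])) : ℚ_[2]) = c - n := by rw [← hz]; simp
    rw [← e]
    exact hm'
  interval_cases n
  · left; simpa using hm2
  · right; simpa using hm2

lemma norm_Q2_eq {b : ℚ_[2]} (hb : b ≠ 0) : ∃ m : ℤ, ‖b‖ = (2 : ℝ) ^ m := by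
  refine ⟨-b.valuation, ?_⟩
  rw [Padic.norm_eq_zpow_neg_valuation hb]
  norm_num

/-- The residue field of `K` is `F_2`. -/
lemma res_K (x : K) (hx : ‖φ x‖ ≤ 1) : ‖φ x‖ < 1 ∨ ‖φ x - 1‖ < 1 := by
  obtain ⟨a, b, hab⟩ := exists_rep x
  set π : Ω := s - 1 with hπ
  set A := algebraMap ℚ_[2] Ω
  have e1 : φ x = A (a + b) + A b * π := by
    rw [hab, map_add, hπ]; ring
  -- the two summands have different norms
  have hne : ‖A (a + b)‖ = ‖A b * π‖ → ‖A (a + b)‖ = 0 := by
    intro h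
    by_contra h0
    have hc0 : a + b ≠ 0 := by
      rintro h1; apply h0; rw [h1, map_zero, norm_zero]
    have hb0 : b ≠ 0 := by
      rintro h1; apply h0; rw [h, h1, map_zero, zero_mul, norm_zero]
    obtain ⟨m, hm⟩ := norm_Q2_eq hc0
    obtain ⟨n, hn⟩ := norm_Q2_eq hb0
    rw [norm_mul, norm_coe, norm_coe, hm, hn] at h
    have h2 : ((2 : ℝ) ^ m) ^ 2 = ((2 : ℝ) ^ n) ^ 2 * 2⁻¹ := by
      rw [h, mul_pow, norm_pi]
    have h3 : (2 : ℝ) ^ (m * 2) = (2 : ℝ) ^ (n * 2 - 1) := by
      rw [zpow_mul, zpow_sub₀ (by norm_num), zpow_mul]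
      simpa [div_eq_mul_inv] using h2
    have h4 := zpow_right_injective₀ (by norm_num : (0:ℝ) < 2) (by norm_num) h3
    omega
  have hmax : ‖φ x‖ = max ‖A (a + b)‖ ‖A b * π‖ := by
    rw [e1]
    by_cases h : ‖A (a + b)‖ = ‖A b * π‖
    · have h0 := hne h
      have h0' : ‖A b * π‖ = 0 := by rw [← h, h0]
      rw [norm_eq_zero] at h0 h0'
      rw [h0, h0']; simp
    · exact IsUltrametricDist.norm_add_eq_max_of_norm_ne_norm h
  have h1 : ‖a + b‖ ≤ 1 := by
    rw [← norm_coe]; exact (le_max_left _ _).trans (hmax ▸ hx)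
  have h2 : ‖A b * π‖ ≤ 1 := (le_max_right _ _).trans (hmax ▸ hx)
  have h3 : ‖A b * π‖ < 1 := by
    by_cases hb0 : b = 0
    · rw [hb0, map_zero, zero_mul, norm_zero]; norm_num
    · obtain ⟨n, hn⟩ := norm_Q2_eq hb0
      have h4 : ‖A b * π‖ ^ 2 = (2 : ℝ) ^ (2 * n - 1) := by
        rw [norm_mul, mul_pow, norm_pi, norm_coe, hn, zpow_sub₀ (by norm_num), mul_comm 2 n, zpow_mul]
        simp [div_eq_mul_inv]
      have h5 : (2 : ℝ) ^ (2 * n - 1) ≤ 1 := by
        rw [← h4]; exact pow_le_one₀ (norm_nonneg _) h2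
      have h6 : 2 * n - 1 < 0 := by
        have : 2 * n - 1 ≤ 0 := by
          by_contra hlt
          push Not at hlt
          have := one_lt_zpow₀ (by norm_num : (1:ℝ) < 2) hlt
          linarith
        omega
      have h7 : (2 : ℝ) ^ (2 * n - 1) < 1 := zpow_lt_one_of_neg₀ (by norm_num) h6
      rw [← h4] at h7
      exact (sq_lt_one_iff₀ (norm_nonneg _)).mp h7
  rcases res_Q2 h1 with h4 | h4
  · left
    rw [e1]
    exact norm_add_lt_one (by rwa [norm_coe]) h3
  · right
    have e2 : φ x - 1 = A (a + b - 1) + A b * π := by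
      rw [e1, map_sub A (a + b) 1, map_one]; ring
    rw [e2]
    exact norm_add_lt_one (by rwa [norm_coe]) h3

/-! ### The colouring -/

/-- The relation of having difference in the valuation ring. -/
def intSetoid : Setoid K where
  r x y := ‖φ (x - y)‖ ≤ 1
  iseqv := ⟨fun x => by simp, fun {x y} h => by
      rw [← neg_sub, map_neg, norm_neg]; exact h, fun {x y z} h1 h2 => by
      have : x - z = (x - y) + (y - z) := by ring
      rw [this, map_add]; exact norm_add_le_one h1 h2⟩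

/-- Coset representative. -/
noncomputable def rep (x : K) : K := (Quotient.mk intSetoid x).out

lemma rep_spec (x : K) : ‖φ (x - rep x)‖ ≤ 1 := by
  have h : intSetoid.r (rep x) x := Quotient.exact (Quotient.out_eq (Quotient.mk intSetoid x))
  exact intSetoid.symm h

lemma rep_eq {x y : K} (h : ‖φ (x - y)‖ ≤ 1) : rep x = rep y := by
  unfold rep
  congr 1
  exact Quotient.sound h

open Classical in
/-- The residue bit of `x` relative to the representative of its coset. -/
noncomputable def bit (x : K) : Bool := decide (‖φ (x - rep x)‖ < 1)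

/-- If the difference is integral and the bits agree then the difference is in the maximal ideal. -/
lemma bit_eq {x y : K} (h : ‖φ (x - y)‖ ≤ 1) (hb : bit x = bit y) : ‖φ (x - y)‖ < 1 := by
  have hr := rep_eq h
  have e : φ (x - y) = φ (x - rep x) - φ (y - rep y) := by
    rw [hr, ← map_sub]; congr 1; ring
  unfold bit at hb
  rw [decide_eq_decide] at hb
  by_cases h1 : ‖φ (x - rep x)‖ < 1
  · rw [e]
    exact norm_sub_lt_one h1 (hb.mp h1)
  · have h2 : ¬ ‖φ (y - rep y)‖ < 1 := fun h2 => h1 (hb.mpr h2)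
    have h3 := (res_K _ (rep_spec x)).resolve_left h1
    have h4 := (res_K _ (rep_spec y)).resolve_left h2
    have e2 : φ (x - y) = (φ (x - rep x) - 1) - (φ (y - rep y) - 1) := by rw [e]; ring
    rw [e2]
    exact norm_sub_lt_one h3 h4

/-- The form `1 - t + t²` has norm one at integral points. -/
lemma form_one (t : K) (ht : ‖φ t‖ ≤ 1) : ‖1 - φ t + φ t ^ 2‖ = 1 := by
  apply norm_eq_one (x := 1) norm_one
  rcases res_K t ht with h | h
  · have : 1 - φ t + φ t ^ 2 - 1 = φ t * (φ t - 1) := by ring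
    rw [this]
    exact norm_mul_lt_one h (norm_sub_le_one ht (by simp))
  · have : 1 - φ t + φ t ^ 2 - 1 = (φ t - 1) * φ t := by ring
    rw [this]
    exact norm_mul_lt_one h ht

/-- If `a² - a b + b² = 1` with `‖b‖ ≤ ‖a‖` then `‖a‖ = 1`. -/
lemma norm_one_of_form {a b : K} (h : a ^ 2 - a * b + b ^ 2 = 1) (hab : ‖φ b‖ ≤ ‖φ a‖) :
    ‖φ a‖ = 1 := by
  have ha : a ≠ 0 := by
    rintro rfl
    have hb : ‖φ b‖ = 0 := le_antisymm (by simpa using hab) (norm_nonneg _)
    rw [norm_eq_zero, map_eq_zero] at hb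
    subst hb
    norm_num at h
  have ha' : φ a ≠ 0 := by rwa [ne_eq, map_eq_zero]
  have ht : ‖φ (b / a)‖ ≤ 1 := by
    rw [map_div₀, norm_div]
    exact div_le_one_of_le₀ hab (norm_nonneg _)
  have h1 := form_one (b / a) ht
  have h2 : φ a ^ 2 * (1 - φ (b / a) + φ (b / a) ^ 2) = 1 := by
    rw [← map_one φ, ← map_pow, ← map_pow, ← map_sub, ← map_add, ← map_mul]
    congr 1
    field_simp
    linear_combination h
  have h3 : ‖φ a‖ ^ 2 = 1 := by
    have h4 : ‖φ a ^ 2 * (1 - φ (b / a) + φ (b / a) ^ 2)‖ = 1 := by rw [h2, norm_one]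
    rwa [norm_mul, h1, mul_one, norm_pow] at h4
  exact (pow_eq_one_iff_of_nonneg (norm_nonneg _) (by norm_num)).mp h3

lemma a3_ne : a3 ≠ 0 := by
  intro h
  have := a3_sq
  rw [h] at this
  norm_num at this

/-- First linear coordinate. -/
noncomputable def al (p : K × K) : K := p.1 + p.2 / a3
/-- Second linear coordinate. -/
noncomputable def be (p : K × K) : K := 2 * p.2 / a3

theorem four_colorable : (unitDistGraph K).Colorable 4 := by
  have hcol : (unitDistGraph K).Coloring (Bool × Bool) := by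
    refine SimpleGraph.Coloring.mk (fun p => (bit (al p), bit (be p))) ?_
    intro p q hadj heq
    rw [Prod.mk.injEq] at heq
    have hform : (al p - al q) ^ 2 - (al p - al q) * (be p - be q) + (be p - be q) ^ 2 = 1 := by
      have h : (p.1 - q.1) ^ 2 + (p.2 - q.2) ^ 2 = 1 := hadj
      unfold al be
      have h3 := a3_sq
      have h3' := a3_ne
      field_simp
      linear_combination a3 ^ 2 * h - (p.2 - q.2) ^ 2 * h3
    rcases le_total ‖φ (be p - be q)‖ ‖φ (al p - al q)‖ with h | h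
    · have h1 := norm_one_of_form hform h
      have h2 := bit_eq h1.le heq.1
      rw [h1] at h2
      exact lt_irrefl _ h2
    · have h1 := norm_one_of_form (a := be p - be q) (b := al p - al q)
        (by rw [← hform]; ring) h
      have h2 := bit_eq h1.le heq.2
      rw [h1] at h2
      exact lt_irrefl _ h2
  have h := hcol.colorable
  simpa using h

/-! ### The Moser spindle -/

lemma fin3_eq : ∀ a b c d : Fin 3, a ≠ b → a ≠ c → b ≠ c → b ≠ d → c ≠ d → a = d := by decide

theorem not_three_colorable : ¬ (unitDistGraph K).Colorable 3 := by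
  rintro ⟨c⟩
  have h3 := a3_sq
  have h11 := a11_sq
  let O : K × K := (0, 0)
  let A : K × K := (a3 / 2, 1 / 2)
  let B : K × K := (a3 / 2, -1 / 2)
  let C : K × K := (a3, 0)
  let A' : K × K := (5 / 6 * (a3 / 2) - a11 / 6 * (1 / 2), a11 / 6 * (a3 / 2) + 5 / 6 * (1 / 2))
  let B' : K × K := (5 / 6 * (a3 / 2) + a11 / 6 * (1 / 2), a11 / 6 * (a3 / 2) - 5 / 6 * (1 / 2))
  let C' : K × K := (5 / 6 * a3, a11 / 6 * a3)
  have key : ∀ p q : K × K, (p.1 - q.1) ^ 2 + (p.2 - q.2) ^ 2 = 1 → c p ≠ c q := by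
    intro p q h
    exact c.valid h
  have e1 : c O = c C := by
    apply fin3_eq (c O) (c A) (c B) (c C)
    · apply key; simp only [O, A]; linear_combination (1 / 4 : K) * h3
    · apply key; simp only [O, B]; linear_combination (1 / 4 : K) * h3
    · apply key; simp only [A, B]; ring
    · apply key; simp only [A, C]; linear_combination (1 / 4 : K) * h3
    · apply key; simp only [B, C]; linear_combination (1 / 4 : K) * h3
  have e2 : c O = c C' := by
    apply fin3_eq (c O) (c A') (c B') (c C')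
    · apply key; simp only [O, A']
      linear_combination (25 / 144 + 11 / 144 : K) * h3 + ((1 : K) / 144 + a3 ^ 2 / 144 - 11 / 144 * 0) * h11 - 0 * h3
    · apply key; simp only [O, B']
      linear_combination (25 / 144 + 11 / 144 : K) * h3 + ((1 : K) / 144 + a3 ^ 2 / 144) * h11
    · apply key; simp only [A', B']; linear_combination (1 / 36 : K) * h11
    · apply key; simp only [A', C']
      linear_combination (25 / 144 + 11 / 144 : K) * h3 + ((1 : K) / 144 + a3 ^ 2 / 144) * h11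
    · apply key; simp only [B', C']
      linear_combination (25 / 144 + 11 / 144 : K) * h3 + ((1 : K) / 144 + a3 ^ 2 / 144) * h11
  have e3 : c C ≠ c C' := by
    apply key; simp only [C, C']
    linear_combination (1 / 36 + 11 / 36 : K) * h3 + (a3 ^ 2 / 36) * h11
  exact e3 (e1.symm.trans e2)

/-- The chromatic number of the unit distance graph on `Q(√3, √11) × Q(√3, √11)` is `4`. -/
theorem result : (unitDistGraph K).chromaticNumber = 4 := by
  apply le_antisymm
  · exact SimpleGraph.chromaticNumber_le_iff_colorable.mpr four_colorable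
  · by_contra hlt
    rw [not_le] at hlt
    apply not_three_colorable
    rw [← SimpleGraph.chromaticNumber_le_iff_colorable]
    rw [show (4 : ℕ∞) = 3 + 1 by norm_num] at hlt
    exact Order.le_of_lt_add_one hlt

end Pool.Agent.Results.MP_52ffe4_co.ChromaticFour
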